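import Pool.Agent.Q22.MI2.Cz

/-! Project MI2: torus derivations on the centre; the algebra of the operators `Db`. -/

set_option autoImplicit false
set_option linter.unusedSectionVars false

namespace Q22.MI2

open Finset Q12.MI2 Q21.MI

universe u v w w'

section

variable {K A G H ι₁ ι₂ κ : Type*} [Field K] [CharP K 2] [Ring A] [Algebra K A] [Group G] [Group H]
variable [Fintype ι₁] [DecidableEq ι₁] [Fintype ι₂]

lemma Xl_mul (B : GBasis K A G) (c : Coord G ι₁ ι₂ κ) (a a' : A) (i : ι₁ ⊕ ι₂) :
    Xl B c (a * a') i = B.aug a * Xl B c a' i + B.aug a' * Xl B c a i := by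
  have h1 : ∀ a, Xl B c a i = sl B (fun g => cst K (c.ξ g) i) a := by
    intro a
    have key : (LinearMap.proj i : (ι₁ ⊕ ι₂ → K) →ₗ[K] K) ∘ₗ Xl B c
        = sl B (fun g => cst K (c.ξ g) i) := by
      refine B.b.ext fun g => ?_
      simp [Xl_b, sl_b]
    exact congrArg (fun T => T a) key
  rw [h1, h1, h1]
  refine sl_mul B _ ?_ a a'
  intro g g'
  simp [cst, c.ξ_mul]

lemma su_mul (B : GBasis K A G) (C : GBasis K A H) (c : Coord G ι₁ ι₂ κ) (haug : B.aug = C.aug)
    (u : (ι₁ → ZMod 2) →+ K) (h k : H) :
    su B C c u (h * k) = su B C c u h + su B C c u k := by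
  unfold su
  rw [← Finset.sum_add_distrib]
  refine Finset.sum_congr rfl fun i _ => ?_
  rw [C.mul, Xl_mul, haug, GBasis.aug_b, GBasis.aug_b]
  ring

end

theorem zv : S_CLS.{u, v, w} → S_CLS.{u, v, w'} → S_ZV.{u, v, w, w'} := by
  intro hcls hcls' K _ _ A _ _ G _ _ H _ ι₁ ι₂ κ _ _ _ _ _ _ B C c haug u z hz v
  classical
  have hCZ := (cz hcls hcls' K A G H ι₁ ι₂ κ B C c haug).1 u
  obtain ⟨hfH, hcard⟩ := card_eq B C
  have hpG : IsPGroup 2 G := pgroup_G c
  have hpH : IsPGroup 2 H := pgroup_H B C hpG
  letI : Fintype H := Fintype.ofFinite H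
  have hs := su_mul B C c haug u
  have h1 : pr B c (C.tor (su B C c u) (B.b z)) v
      = ∑ h, C.b.repr (B.b z) h * (su B C c u h * pr B c (C.b h) v) := by
    have h2 : C.tor (su B C c u) (B.b z) = ∑ h, C.b.repr (B.b z) h • su B C c u h • C.b h := by
      rw [GBasis.tor, Module.Basis.constr_apply_fintype]
      simp
    rw [h2]
    change (LinearMap.proj v ∘ₗ prL B c) _ = _
    rw [map_sum]
    refine Finset.sum_congr rfl fun h _ => ?_
    rw [map_smul, map_smul]
    rfl
  rw [h1]
  refine hcls' K A H C hpH (B.b z) (fun k => central_b B hz (C.b k)) _ ?_ ?_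
  · intro k h
    have h3 : su B C c u 1 = 0 := by
      have := hs 1 1
      rw [mul_one] at this
      exact left_eq_add.1 this
    have h4 : su B C c u (k * h * k⁻¹) = su B C c u h := by
      rw [hs, hs, add_right_comm, ← hs, mul_inv_cancel, h3, zero_add]
    have h5 : pr B c (C.b (k * h * k⁻¹)) = pr B c (C.b h) := by
      rw [C.mul, C.mul]
      exact pr_conj B c _ _ _ (C.mul_inv k)
    rw [h4, h5]
  · intro h hh
    rw [hCZ h hh, zero_mul]

/-! ## The operators `Db` -/

section Alg

variable {K V : Type*} [Field K] [CharP K 2] [AddCommGroup V] [Fintype V]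

lemma Db_single [DecidableEq V] (μ : V → (V →+ K) →ₗ[K] (V →+ K)) (u : V →+ K) (x y : V) :
    Db μ u (Pi.single x 1) y = μ (y + x) u x := by
  change ∑ z, (Pi.single x (1 : K) : V → K) z * μ (y + z) u z = _
  rw [Finset.sum_eq_single x]
  · simp
  · intro z _ hz; simp [hz]
  · intro h; exact absurd (Finset.mem_univ _) h

lemma sum_shift (_hV : ∀ v : V, v + v = 0) {M : Type*} [AddCommMonoid M] (w : V) (f : V → M) :
    ∑ v, f v = ∑ v, f (v + w) :=
  (Fintype.sum_equiv (Equiv.addRight w) _ _ (fun _ => rfl)).symm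

lemma Db_Db_single [DecidableEq V] (hV : ∀ v : V, v + v = 0)
    (μ : V → (V →+ K) →ₗ[K] (V →+ K)) (u u' : V →+ K) (x w : V) :
    Db μ u (Db μ u' (Pi.single x 1)) (w + x)
      = ∑ v, μ (w + v) u v * μ v u' x + ∑ v, μ (w + v) u x * μ v u' x := by
  change ∑ y, Db μ u' (Pi.single x 1) y * μ (w + x + y) u y = _
  rw [sum_shift hV x, ← Finset.sum_add_distrib]
  refine Finset.sum_congr rfl fun v _ => ?_
  rw [Db_single, add_assoc v x x, hV, add_zero]
  have h1 : w + x + (v + x) = w + v := by
    rw [add_add_add_comm, hV, add_zero]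
  rw [h1, map_add]
  ring

end Alg

theorem alg : S_ALG.{u} := by
  intro K _ _ V _ _ hV μ h1
  classical
  constructor
  · intro hc u u' w
    ext x
    have h2 := congrArg (fun T => T (Pi.single x 1) (w + x)) (hc u u')
    simp only [LinearMap.comp_apply] at h2
    rw [Db_Db_single hV, Db_Db_single hV] at h2
    have h3 : ∑ v, μ (w + v) u x * μ v u' x = ∑ v, μ (w + v) u' x * μ v u x := by
      rw [sum_shift hV w]
      refine Finset.sum_congr rfl fun v _ => ?_
      have h4 : w + (v + w) = v := by
        rw [add_comm v w, ← add_assoc, hV, zero_add]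
      rw [h4, add_comm v w, mul_comm]
    rw [h3] at h2
    have h5 := add_right_cancel h2
    simp only [AddMonoidHom.finsetSum_apply, AddMonoidHom.add_apply, AddMonoidHom.smul_apply,
      smul_eq_mul, AddMonoidHom.zero_apply]
    rw [Finset.sum_add_distrib, h5]
    exact CharTwo.add_self_eq_zero _
  · intro u hid x
    have hu : ∀ y, ∑ v, μ v u y = u y := by
      intro y
      have h2 := congrArg (fun g : V →+ K => g y) (h1 u)
      simpa only [AddMonoidHom.finsetSum_apply] using h2
    have hsum : ∀ f : V → K, ∑ w, Db μ u f w = ∑ y, f y * u y := by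
      intro f
      change ∑ w, ∑ y, f y * μ (w + y) u y = _
      rw [Finset.sum_comm]
      refine Finset.sum_congr rfl fun y _ => ?_
      rw [← Finset.mul_sum, ← sum_shift hV y (fun w => μ w u y), hu]
    have h2 := congrArg (fun T => ∑ w, T (Pi.single x 1) w) hid
    simp only [LinearMap.comp_apply] at h2
    rw [hsum, hsum] at h2
    have h3 : ∑ y, (Pi.single x (1 : K) : V → K) y * u y = u x := by
      rw [Finset.sum_eq_single x]
      · simp
      · intro z _ hz; simp [hz]
      · intro h; exact absurd (Finset.mem_univ _) h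
    rw [h3] at h2
    rw [sum_shift hV x] at h2
    have h4 : ∀ v, Db μ u (Pi.single x 1) (v + x) * u (v + x)
        = u v * μ v u x + μ v u x * u x := by
      intro v
      rw [Db_single, add_assoc, hV, add_zero, map_add]; ring
    rw [Finset.sum_congr rfl (fun v _ => h4 v), Finset.sum_add_distrib, ← Finset.sum_mul, hu] at h2
    linear_combination -h2

lemma fin_hom (K V : Type*) [Field K] [AddCommGroup V] [Fintype V] : Module.Finite K (V →+ K) := by
  let f : (V →+ K) →ₗ[K] (V → K) :=
    { toFun := fun u x => u x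
      map_add' := fun u v => rfl
      map_smul' := fun k u => rfl }
  exact Module.Finite.of_injective f (fun u v h => AddMonoidHom.ext (fun x => congrFun h x))

section Phi

variable {K V : Type*} [Field K] [CharP K 2] [AddCommGroup V] [Fintype V]

lemma Db_zero_single [DecidableEq V] (μ : V → (V →+ K) →ₗ[K] (V →+ K)) (u : V →+ K) :
    Db μ u (Pi.single 0 1) = 0 := by
  funext y
  rw [Db_single, map_zero]; rfl

/-- product of the complementary idempotents -/
noncomputable def Pl' (μ : V → (V →+ K) →ₗ[K] (V →+ K)) (l : List (V →+ K)) :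
    Module.End K (V → K) := (l.map (fun u => 1 - (Db μ u : Module.End K (V → K)))).prod

lemma Pl'_zero [DecidableEq V] (μ : V → (V →+ K) →ₗ[K] (V →+ K)) (l : List (V →+ K)) :
    Pl' μ l (Pi.single 0 1) = Pi.single 0 1 := by
  induction l with
  | nil => simp [Pl']
  | cons a l ih =>
    have h1 : Pl' μ (a :: l) = (1 - (Db μ a : Module.End K (V → K))) * Pl' μ l := by
      simp [Pl']
    rw [h1, Module.End.mul_apply, ih, LinearMap.sub_apply, Db_zero_single]
    simp

lemma Pl'_kill (μ : V → (V →+ K) →ₗ[K] (V →+ K))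
    (hc : ∀ u u', Db μ u ∘ₗ Db μ u' = Db μ u' ∘ₗ Db μ u) (l : List (V →+ K))
    (hl : ∀ u ∈ l, Db μ u ∘ₗ Db μ u = Db μ u) (u : V →+ K) (hu : u ∈ l) :
    Pl' μ l * (Db μ u : Module.End K (V → K)) = 0 := by
  induction l with
  | nil => simp at hu
  | cons a l ih =>
    have h1 : Pl' μ (a :: l) = (1 - (Db μ a : Module.End K (V → K))) * Pl' μ l := by
      simp [Pl']
    have hcomm : ∀ (l : List (V →+ K)) (b : V →+ K),
        Commute (Pl' μ l) (Db μ b : Module.End K (V → K)) := by
      intro l b
      apply Commute.symm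
      apply Commute.list_prod_right
      intro x hx
      obtain ⟨c, _, rfl⟩ := List.mem_map.1 hx
      apply Commute.sub_right (Commute.one_right _)
      exact hc b c
    rw [h1]
    rcases List.mem_cons.1 hu with h2 | h2
    · subst h2
      have h3 : (Db μ u : Module.End K (V → K)) * Db μ u = Db μ u := hl u List.mem_cons_self
      rw [mul_assoc, (hcomm l u).eq, ← mul_assoc, sub_mul, one_mul, h3, sub_self, zero_mul]
    · rw [mul_assoc, ih (fun w hw => hl w (List.mem_cons_of_mem _ hw)) h2, mul_zero]

end Phi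

theorem phi : S_PHI.{u} := by
  intro K _ _ V _ _ hV μ hc hs
  classical
  haveI : Module.Finite K (V →+ K) := fin_hom K V
  have hfg : (Submodule.span K {u : V →+ K | Db μ u ∘ₗ Db μ u = Db μ u}).FG := by
    rw [hs]; exact Module.Finite.fg_top
  obtain ⟨s, hs1, hs2⟩ := (Submodule.fg_span_iff_fg_span_finset_subset _).1 hfg
  set P := Pl' μ s.toList with hP
  have hkill : ∀ u : V →+ K, P * (Db μ u : Module.End K (V → K)) = 0 := by
    intro u
    have hu : u ∈ Submodule.span K (s : Set (V →+ K)) := by
      rw [← hs2, hs]; exact Submodule.mem_top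
    induction hu using Submodule.span_induction with
    | mem x hx =>
      refine Pl'_kill μ hc s.toList ?_ x (Finset.mem_toList.2 hx)
      intro w hw
      exact hs1 (Finset.mem_toList.1 hw)
    | zero =>
      have h1 : (Db μ 0 : Module.End K (V → K)) = 0 := by
        ext f w
        simp [Db]
      rw [h1, mul_zero]
    | add x y _ _ hx hy =>
      have h1 : (Db μ (x + y) : Module.End K (V → K)) = Db μ x + Db μ y := by
        apply LinearMap.ext; intro f; funext w
        simp [Db, mul_add, Finset.sum_add_distrib]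
      rw [h1, mul_add, hx, hy, add_zero]
    | smul k x _ hx =>
      have h1 : (Db μ (k • x) : Module.End K (V → K)) = k • Db μ x := by
        apply LinearMap.ext; intro f; funext w
        simp [Db, Finset.mul_sum, mul_left_comm]
      rw [h1, mul_smul_comm, hx, smul_zero]
  refine ⟨fun x => ∑ w, P (Pi.single x 1) w, ?_, ?_⟩
  · change ∑ w, P (Pi.single 0 1) w = 1
    rw [hP, Pl'_zero]
    simp
  · intro u x
    have h1 : Db μ u (Pi.single x 1) = ∑ v, μ v u x • (Pi.single (v + x) (1 : K) : V → K) := by
      funext y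
      rw [Db_single, Finset.sum_apply, Finset.sum_eq_single (y + x)]
      · simp [add_assoc, hV]
      · intro v _ hv
        have h2 : y ≠ v + x := by
          intro h2; apply hv; rw [h2, add_assoc, hV, add_zero]
        simp [h2]
      · intro h; exact absurd (Finset.mem_univ _) h
    have h2 : P (Db μ u (Pi.single x 1)) = 0 := by
      have := congrArg (fun T => T (Pi.single x 1)) (hkill u)
      simpa [Module.End.mul_apply] using this
    have h3 := congrArg (fun f => ∑ w, f w) h2
    rw [h1, map_sum] at h3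
    simp only [map_smul, Finset.sum_apply, Pi.smul_apply, smul_eq_mul, Pi.zero_apply,
      Finset.sum_const_zero] at h3
    rw [Finset.sum_comm] at h3
    rw [← h3]
    refine Finset.sum_congr rfl fun v _ => ?_
    rw [Finset.mul_sum]

theorem cz_full : S_CZ.{u, v, w, w'} := cz cls cls

theorem zv_full : S_ZV.{u, v, w, w'} := zv cls cls

end Q22.MI2
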