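import Pool.Agent.Q12.MI2.Stm3

/-! Project MI2: class functions, and the projection to the group algebra of `G/Z(G)`. -/

set_option autoImplicit false
set_option linter.unusedSectionVars false

namespace Q22.MI2

open Finset Q12.MI2 Q21.MI

universe u v w w'

/-- a class function on a finite 2-group which vanishes on the centre has sum zero -/
lemma class_sum {K : Type*} [Field K] [CharP K 2] {H : Type*} [Group H] [Fintype H]
    (hp : IsPGroup 2 H) (F : H → K) (hF : ∀ k h, F (k * h * k⁻¹) = F h)
    (h0 : ∀ h, h ∈ Subgroup.center H → F h = 0) : ∑ h, F h = 0 := by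
  classical
  have h1 : ∑ h, F h = ∑ c : ConjClasses H, ∑ h ∈ univ.filter (fun h => ConjClasses.mk h = c), F h :=
    (Finset.sum_fiberwise univ (fun h => ConjClasses.mk h) F).symm
  rw [h1]
  refine Finset.sum_eq_zero fun c _ => ?_
  obtain ⟨a, rfl⟩ := ConjClasses.exists_rep c
  have h2 : ∀ h ∈ univ.filter (fun h => ConjClasses.mk h = ConjClasses.mk a), F h = F a := by
    intro h hh
    have h3 := (Finset.mem_filter.1 hh).2
    rw [ConjClasses.mk_eq_mk_iff_isConj, isConj_iff] at h3
    obtain ⟨k, hk⟩ := h3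
    rw [← hk, hF]
  rw [Finset.sum_congr rfl h2, Finset.sum_const]
  by_cases ha : a ∈ Subgroup.center H
  · rw [h0 a ha, smul_zero]
  have hcard : (univ.filter (fun h => ConjClasses.mk h = ConjClasses.mk a)).card
      = Nat.card (MulAction.orbit (ConjAct H) a) := by
    rw [ConjAct.orbit_eq_carrier_conjClasses, Nat.card_eq_card_toFinset]
    congr 1
    ext x
    simp only [Finset.mem_filter, Finset.mem_univ, true_and, Set.mem_toFinset]
    rw [ConjClasses.mem_carrier_iff_mk_eq]
  have hpc : IsPGroup 2 (ConjAct H) := hp.of_equiv ConjAct.toConjAct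
  obtain ⟨n, hn⟩ := hpc.card_orbit a
  rcases Nat.eq_zero_or_pos n with h4 | h4
  · exfalso
    apply ha
    rw [h4, pow_zero] at hn
    rw [Subgroup.mem_center_iff]
    intro g
    have h5 : Subsingleton (MulAction.orbit (ConjAct H) a) := (Nat.card_eq_one_iff_unique.1 hn).1
    have h6 : (⟨ConjAct.toConjAct g • a, MulAction.mem_orbit _ _⟩ :
        MulAction.orbit (ConjAct H) a) = ⟨a, MulAction.mem_orbit_self _⟩ := Subsingleton.elim _ _
    have h7 := congrArg Subtype.val h6
    simp only [ConjAct.toConjAct_smul] at h7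
    exact mul_inv_eq_iff_eq_mul.1 h7
  · rw [hcard, hn]
    have h8 : (2 : K) = 0 := by
      have := CharP.cast_eq_zero K 2
      simpa using this
    obtain ⟨m, rfl⟩ : ∃ m, n = m + 1 := ⟨n - 1, by omega⟩
    rw [nsmul_eq_mul, pow_succ, Nat.cast_mul]
    push_cast
    rw [h8]; ring

theorem cls : S_CLS.{u, v, w} := by
  intro K _ _ A _ _ H _ _ C hp a ha f hf h0
  refine class_sum hp (fun h => C.b.repr a h * f h) ?_ ?_
  · intro k h
    have h1 : C.b.repr a (k * h * k⁻¹) = C.b.repr a h := by
      have h2 := C.repr_conj k⁻¹ h a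
      rw [ha k⁻¹, inv_inv, mul_assoc, C.inv_mul, mul_one] at h2
      exact h2.symm
    rw [h1, hf]
  · intro h hh
    rw [h0 h hh, mul_zero]

section PR

variable {K A G ι₁ ι₂ κ : Type*} [Field K] [CharP K 2] [Ring A] [Algebra K A] [Group G]
variable [Fintype G] [Fintype ι₁] [DecidableEq ι₁] [Fintype ι₂]
variable (B : GBasis K A G) (c : Coord G ι₁ ι₂ κ)

lemma x1_mul (g h : G) : x1 c (g * h) = x1 c g + x1 c h := by
  funext i
  simp [x1, c.ξ_mul]

lemma pr_add (a a' : A) : pr B c (a + a') = pr B c a + pr B c a' := by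
  classical
  funext v
  simp only [pr, map_add, Finsupp.add_apply, Pi.add_apply]
  rw [← Finset.sum_add_distrib]
  refine Finset.sum_congr rfl fun g _ => ?_
  split_ifs <;> simp

lemma pr_smul (k : K) (a : A) : pr B c (k • a) = k • pr B c a := by
  classical
  funext v
  simp only [pr, map_smul, Finsupp.smul_apply, Pi.smul_apply, smul_eq_mul]
  rw [Finset.mul_sum]
  refine Finset.sum_congr rfl fun g _ => ?_
  split_ifs <;> simp

/-- the projection as a linear map -/
noncomputable def prL : A →ₗ[K] ((ι₁ → ZMod 2) → K) where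
  toFun := pr B c
  map_add' := pr_add B c
  map_smul' := pr_smul B c

lemma pr_b (g : G) (v : ι₁ → ZMod 2) : pr B c (B.b g) v = if x1 c g = v then 1 else 0 := by
  classical
  simp only [pr, Module.Basis.repr_self, Finsupp.single_apply]
  rw [Finset.sum_eq_single g]
  · simp
  · intro h _ hh
    simp [Ne.symm hh]
  · simp

lemma pr_sum (a : A) : ∑ v, pr B c a v = B.aug a := by
  classical
  have key : (∑ v : ι₁ → ZMod 2, (LinearMap.proj v : ((ι₁ → ZMod 2) → K) →ₗ[K] K) ∘ₗ prL B c)
      = B.aug.toLinearMap := by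
    refine B.b.ext fun g => ?_
    simp only [LinearMap.sum_apply, LinearMap.comp_apply, LinearMap.proj_apply,
      AlgHom.toLinearMap_apply, GBasis.aug_b]
    change ∑ v, pr B c (B.b g) v = 1
    simp [pr_b]
  have h1 := congrArg (fun T => T a) key
  simpa [prL] using h1

lemma pr_mul (a a' : A) (w : ι₁ → ZMod 2) :
    pr B c (a * a') w = ∑ v, pr B c a v * pr B c a' (w + v) := by
  classical
  have key : (LinearMap.mul K A).compr₂ ((LinearMap.proj w : ((ι₁ → ZMod 2) → K) →ₗ[K] K) ∘ₗ prL B c)
      = ∑ v : ι₁ → ZMod 2, (LinearMap.mul K K).compl₁₂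
        ((LinearMap.proj v : ((ι₁ → ZMod 2) → K) →ₗ[K] K) ∘ₗ prL B c)
        ((LinearMap.proj (w + v) : ((ι₁ → ZMod 2) → K) →ₗ[K] K) ∘ₗ prL B c) := by
    refine B.b.ext fun g => B.b.ext fun h => ?_
    simp only [LinearMap.compr₂_apply, LinearMap.mul_apply', LinearMap.comp_apply,
      LinearMap.proj_apply, LinearMap.sum_apply, LinearMap.compl₁₂_apply, ← B.mul]
    change pr B c (B.b (g * h)) w = ∑ v, pr B c (B.b g) v * pr B c (B.b h) (w + v)
    rw [pr_b, x1_mul]
    rw [Finset.sum_eq_single (x1 c g)]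
    · rw [pr_b, pr_b, if_pos rfl, one_mul]
      congr 1
      apply propext
      have h2 : ∀ x : ι₁ → ZMod 2, x + x = 0 := by
        intro x; funext i; exact CharTwo.add_self_eq_zero _
      constructor
      · intro h'; rw [← h', add_right_comm, h2, zero_add]
      · intro h'; rw [h', add_comm, add_assoc, h2, add_zero]
    · intro v _ hv
      rw [pr_b, if_neg (fun h' => hv h'.symm), zero_mul]
    · intro h'; exact absurd (Finset.mem_univ _) h'
  have h1 := congrArg (fun T => T a a') key
  simpa [prL, LinearMap.sum_apply] using h1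

lemma pr_mul_comm (a a' : A) : pr B c (a * a') = pr B c (a' * a) := by
  funext w
  have h2 : ∀ x : ι₁ → ZMod 2, x + x = 0 := by
    intro x; funext i; exact CharTwo.add_self_eq_zero _
  rw [pr_mul, pr_mul]
  refine Finset.sum_bij' (fun v _ => w + v) (fun v _ => w + v) ?_ ?_ ?_ ?_ ?_
  · intro v _; exact Finset.mem_univ _
  · intro v _; exact Finset.mem_univ _
  · intro v _; rw [← add_assoc, h2, zero_add]
  · intro v _; rw [← add_assoc, h2, zero_add]
  · intro v _
    rw [← add_assoc, h2, zero_add, mul_comm]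

lemma pr_congr_mul {a a' : A} (h : pr B c a = pr B c a') (b : A) :
    pr B c (a * b) = pr B c (a' * b) := by
  funext w
  rw [pr_mul, pr_mul, h]

lemma pr_conj (a x y : A) (h : x * y = 1) : pr B c (x * a * y) = pr B c a := by
  rw [pr_congr_mul B c (pr_mul_comm B c x a) y, mul_assoc, h, mul_one]

end PR

theorem pr_all : S_PR.{u, v, w} := by
  intro K _ _ A _ _ G _ _ ι₁ ι₂ κ _ _ _ B c
  refine ⟨pr_mul B c, ?_, pr_sum B c, pr_conj B c, pr_add B c, pr_smul B c⟩
  intro g v
  rw [pr_b]

end Q22.MI2
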