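import Pool.Agent.Q22.MI2.Cls

/-! Project MI2: central elements of the two groups. -/

set_option autoImplicit false
set_option linter.unusedSectionVars false

namespace Q22.MI2

open Finset Q12.MI2 Q21.MI

universe u v w w'

lemma cst_zero {ι K : Type*} [Field K] [CharP K 2] (i : ι) : cst K (0 : ι → ZMod 2) i = 0 := by
  simp [cst]

lemma addhom_expand {K ι : Type*} [Field K] [CharP K 2] [Fintype ι] [DecidableEq ι]
    (u : (ι → ZMod 2) →+ K) (x : ι → ZMod 2) :
    u x = ∑ i, u (Pi.single i 1) * cst K x i := by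
  have h1 : x = ∑ i, Pi.single i (x i) := by
    funext j
    rw [Finset.sum_apply]
    simp [Pi.single_apply]
  conv_lhs => rw [h1]
  rw [map_sum]
  refine Finset.sum_congr rfl fun i _ => ?_
  have h2 : ∀ t : ZMod 2, t = 0 ∨ t = 1 := by decide
  rcases h2 (x i) with h | h
  · rw [h]; simp [cst, h]
  · rw [h]; simp [cst, h]

section

variable {K A G H ι₁ ι₂ κ : Type*} [Field K] [CharP K 2] [Ring A] [Algebra K A] [Group G] [Group H]
variable [Fintype ι₁] [DecidableEq ι₁] [Fintype ι₂]

lemma pgroup_G [Fintype κ] (c : Coord G ι₁ ι₂ κ) : IsPGroup 2 G := by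
  classical
  have h1 : Nat.card G = 2 ^ (Fintype.card (ι₁ ⊕ ι₂) + Fintype.card κ) := by
    rw [Nat.card_congr (Equiv.ofBijective _ c.bij), Nat.card_prod, pow_add]
    congr 1
    · rw [Nat.card_eq_fintype_card, Fintype.card_fun, ZMod.card]
    · rw [Nat.card_eq_fintype_card, Fintype.card_fun, ZMod.card]
  exact IsPGroup.of_card h1

lemma card_eq [Finite G] (B : GBasis K A G) (C : GBasis K A H) :
    Finite H ∧ Nat.card H = Nat.card G := by
  have hf : Module.Finite K A := Module.Finite.of_basis B.b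
  have h1 : Finite H := Module.Finite.finite_basis C.b
  refine ⟨h1, ?_⟩
  rw [← Module.finrank_eq_nat_card_basis C.b, ← Module.finrank_eq_nat_card_basis B.b]

lemma pgroup_H [Finite G] (B : GBasis K A G) (C : GBasis K A H) (hG : IsPGroup 2 G) :
    IsPGroup 2 H := by
  obtain ⟨h1, h2⟩ := card_eq B C
  haveI : Fact (Nat.Prime 2) := ⟨Nat.prime_two⟩
  obtain ⟨n, hn⟩ := IsPGroup.iff_card.1 hG
  exact IsPGroup.of_card (n := n) (h2.trans hn)

lemma central_b (C : GBasis K A H) {h : H} (hh : h ∈ Subgroup.center H) (a : A) :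
    a * C.b h = C.b h * a := by
  have key : LinearMap.mulRight K (C.b h) = LinearMap.mulLeft K (C.b h) := by
    refine C.b.ext fun k => ?_
    simp only [LinearMap.mulRight_apply, LinearMap.mulLeft_apply, ← C.mul]
    rw [Subgroup.mem_center_iff.1 hh k]
  exact congrArg (fun T => T a) key

lemma Xl_b (B : GBasis K A G) (c : Coord G ι₁ ι₂ κ) (g : G) : Xl B c (B.b g) = cst K (c.ξ g) := by
  simp [Xl, Module.Basis.constr_basis]

lemma ξ_one (c : Coord G ι₁ ι₂ κ) : c.ξ 1 = 0 := by
  have := c.ξ_mul 1 1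
  rw [mul_one] at this
  exact left_eq_add.1 this

lemma ξ_conj (c : Coord G ι₁ ι₂ κ) (k g : G) : c.ξ (k * g * k⁻¹) = c.ξ g := by
  rw [c.ξ_mul, c.ξ_mul, add_right_comm, ← c.ξ_mul, mul_inv_cancel, ξ_one, zero_add]

lemma Xl_apply [Fintype G] (B : GBasis K A G) (c : Coord G ι₁ ι₂ κ) (a : A) (i : ι₁ ⊕ ι₂) :
    Xl B c a i = ∑ g, B.b.repr a g * cst K (c.ξ g) i := by
  rw [Xl, Module.Basis.constr_apply_fintype]
  simp [Finset.sum_apply]

/-- the linear extension of a function on `H` -/
noncomputable def sl (C : GBasis K A H) (s : H → K) : A →ₗ[K] K := C.b.constr K s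

lemma sl_b (C : GBasis K A H) (s : H → K) (h : H) : sl C s (C.b h) = s h := by
  simp [sl, Module.Basis.constr_basis]

lemma sl_mul (C : GBasis K A H) (s : H → K) (hs : ∀ h k, s (h * k) = s h + s k) (a a' : A) :
    sl C s (a * a') = C.aug a * sl C s a' + C.aug a' * sl C s a := by
  have key : (LinearMap.mul K A).compr₂ (sl C s)
      = (LinearMap.mul K K).compl₁₂ C.aug.toLinearMap (sl C s)
        + (LinearMap.mul K K).compl₁₂ (sl C s) C.aug.toLinearMap := by
    refine C.b.ext fun g => C.b.ext fun h => ?_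
    simp only [LinearMap.compr₂_apply, LinearMap.mul_apply', LinearMap.add_apply,
      LinearMap.compl₁₂_apply, AlgHom.toLinearMap_apply, GBasis.aug_b, ← C.mul, sl_b, hs]
    ring
  have h1 := congrArg (fun T => T a a') key
  simp only [LinearMap.compr₂_apply, LinearMap.mul_apply', LinearMap.add_apply,
      LinearMap.compl₁₂_apply, AlgHom.toLinearMap_apply] at h1
  rw [h1]; ring

lemma x1_eq_zero (c : Coord G ι₁ ι₂ κ) (g : G) : x1 c g = 0 ↔ g ∈ Subgroup.center G := by
  rw [c.center]
  constructor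
  · intro h i; exact congrFun h i
  · intro h; funext i; exact h i

lemma x1_mul' (c : Coord G ι₁ ι₂ κ) (g h : G) : x1 c (g * h) = x1 c g + x1 c h := by
  funext i
  simp [x1, c.ξ_mul]

lemma x1_surj (c : Coord G ι₁ ι₂ κ) : Function.Surjective (x1 c) := by
  intro v
  obtain ⟨g, hg⟩ := c.bij.2 (Sum.elim v 0, 0)
  refine ⟨g, ?_⟩
  funext i
  have h1 := congrArg (fun p => p.1 (Sum.inl i)) hg
  exact h1

/-- an additive function on `G` which kills the centre factors through `x1` -/
lemma factor (c : Coord G ι₁ ι₂ κ) (φ : G → K) (hφ : ∀ g h, φ (g * h) = φ g + φ h)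
    (hz : ∀ z, z ∈ Subgroup.center G → φ z = 0) :
    ∃ u : (ι₁ → ZMod 2) →+ K, ∀ g, u (x1 c g) = φ g := by
  classical
  choose f hf using x1_surj c
  have key : ∀ g h, x1 c g = x1 c h → φ g = φ h := by
    intro g h hgh
    have h2 : ∀ x : ι₁ → ZMod 2, x + x = 0 := by
      intro x; funext i; exact CharTwo.add_self_eq_zero _
    have h3 : x1 c (g * h⁻¹) = 0 := by
      have h4 : x1 c (h * h⁻¹) = 0 := by
        rw [mul_inv_cancel, x1_eq_zero]; exact Subgroup.one_mem _
      rw [x1_mul', hgh, ← x1_mul', h4]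
    have h5 := hz _ ((x1_eq_zero c _).1 h3)
    have h6 : φ (g * h⁻¹ * h) = φ (g * h⁻¹) + φ h := hφ _ _
    rw [h5, zero_add, inv_mul_cancel_right] at h6
    exact h6
  refine ⟨{ toFun := fun v => φ (f v), map_zero' := ?_, map_add' := ?_ }, ?_⟩
  · have h1 : φ 1 = 0 := hz 1 (Subgroup.one_mem _)
    rw [← h1]
    apply key
    rw [hf, (x1_eq_zero c 1).2 (Subgroup.one_mem _)]
  · intro x y
    rw [← hφ]
    apply key
    rw [x1_mul', hf, hf, hf]
  · intro g
    exact key _ _ (hf _)

end

theorem cz : S_CLS.{u, v, w} → S_CLS.{u, v, w'} → S_CZ.{u, v, w, w'} := by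
  intro hcls hcls' K _ _ A _ _ G _ _ H _ ι₁ ι₂ κ _ _ _ _ _ _ B C c haug
  classical
  obtain ⟨hfH, hcard⟩ := card_eq B C
  have hpG : IsPGroup 2 G := pgroup_G c
  have hpH : IsPGroup 2 H := pgroup_H B C hpG
  letI : Fintype G := Fintype.ofFinite G
  letI : Fintype H := Fintype.ofFinite H
  constructor
  · intro u h hh
    unfold su
    refine Finset.sum_eq_zero fun i _ => ?_
    have h1 : Xl B c (C.b h) (Sum.inl i) = 0 := by
      rw [Xl_apply]
      refine hcls K A G B hpG (C.b h) (fun k => central_b C hh (B.b k))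
        (fun g => cst K (c.ξ g) (Sum.inl i)) ?_ ?_
      · intro k g
        simp only [ξ_conj]
      · intro g hg
        simp only [cst]
        rw [(c.center g).1 hg i, map_zero]
    rw [h1, mul_zero]
  · intro s hs hs0
    have hadd : ∀ g g', sl C s (B.b (g * g')) = sl C s (B.b g) + sl C s (B.b g') := by
      intro g g'
      rw [B.mul, sl_mul C s hs, ← haug, GBasis.aug_b, GBasis.aug_b]; ring
    have hz : ∀ z, z ∈ Subgroup.center G → sl C s (B.b z) = 0 := by
      intro z hz
      have h1 : sl C s (B.b z) = ∑ h, C.b.repr (B.b z) h * s h := by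
        rw [sl, Module.Basis.constr_apply_fintype]
        simp
      rw [h1]
      refine hcls' K A H C hpH (B.b z) (fun k => central_b B hz (C.b k)) s ?_ hs0
      intro k h
      have h1 : s 1 = 0 := by
        have := hs 1 1
        rw [mul_one] at this
        exact left_eq_add.1 this
      rw [hs, hs, add_right_comm, ← hs, mul_inv_cancel, h1, zero_add]
    obtain ⟨u, hu⟩ := factor c (fun g => sl C s (B.b g)) hadd hz
    refine ⟨u, fun h => ?_⟩
    have key : (∑ i : ι₁, u (Pi.single i 1) •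
        ((LinearMap.proj (Sum.inl i) : (ι₁ ⊕ ι₂ → K) →ₗ[K] K) ∘ₗ Xl B c)) = sl C s := by
      refine B.b.ext fun g => ?_
      rw [← hu g, addhom_expand u (x1 c g)]
      simp [LinearMap.sum_apply, Xl_b, cst, x1]
    have h1 := congrArg (fun T => T (C.b h)) key
    simp only [sl_b] at h1
    rw [← h1]
    simp [su, LinearMap.sum_apply]

end Q22.MI2
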